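import Pool.Agent.V5helper19.EP.Fin
import Pool.Agent.V5helper9.EPD.MC
import Pool.Agent.V5helper9.EPD.G
import Pool.Agent.V5helper17.EP.CH
import Pool.Agent.W5h2.DP.V
import Pool.Agent.W5h2.DP.H
import Pool.Agent.W5h2.DP.U
import Pool.Agent.W5h2.DP.I
import Pool.Agent.W5h2.DP.E1

set_option autoImplicit false

open Configuration Pool.Agent.W5h2.DP

namespace V5helper19.EP

theorem all_min : ∃ C : ℝ, ∀ (P L : Type) [Fintype P] [Fintype L] [Membership P L]
    [ProjectivePlane P L] (q : ℕ), q = ProjectivePlane.order P L →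
    Real.logb 2 (numMin P L) ≤ C * (q : ℝ) ^ (3 / 2 : ℝ) :=
  log_numMin (h v) (Pool.Agent.V5helper9.EPD.t_G (h v)) V5helper17.EP.t_CH
    Pool.Agent.V5helper9.EPD.t_MC e1 u i

theorem all_tan : ∃ C : ℝ, ∀ (P L : Type) [Fintype P] [Fintype L] [Membership P L]
    [ProjectivePlane P L] (q : ℕ), q = ProjectivePlane.order P L →
    Real.logb 2 (numTan P L) ≤ C * (q : ℝ) ^ (3 / 2 : ℝ) :=
  log_numTan (h v) (Pool.Agent.V5helper9.EPD.t_G (h v)) V5helper17.EP.t_CH e1

end V5helper19.EP
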