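import Pool.Agent.V5helper19.EP.TC
import Pool.Agent.W5h2.DP.Main

set_option autoImplicit false

open Finset Configuration Pool.Agent.W5h2.DP

namespace V5helper19.EP

theorem numTan_pos (P L : Type) [Fintype P] [Membership P L] : 1 ≤ numTan P L := by
  unfold numTan
  rw [Nat.one_le_iff_ne_zero, Ne, Set.ncard_eq_zero (Set.toFinite _)]
  intro h
  have h1 : (∅ : Finset P) ∈ {U : Finset P | Tan P L U} := by
    intro u hu
    exact absurd hu (notMem_empty u)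
  rw [h] at h1
  exact h1

/-- the upper bound for the number of minimal dominating sets -/
theorem log_numMin (hH : S_H) (hG : S_G) (hC : S_CH) (hM : S_MC) (he1 : S_E1) (hu : S_U)
    (hi : S_I) : ∃ C : ℝ, ∀ (P L : Type) [Fintype P] [Fintype L] [Membership P L]
    [ProjectivePlane P L] (q : ℕ), q = ProjectivePlane.order P L →
    Real.logb 2 (numMin P L) ≤ C * (q : ℝ) ^ (3 / 2 : ℝ) := by
  obtain ⟨C, hE⟩ := he1
  refine ⟨5 + 12 * C, fun P L _ _ _ _ q hq => ?_⟩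
  have hq2 : 2 ≤ q := by
    rw [hq]
    exact ProjectivePlane.one_lt_order P L
  obtain ⟨s, J, h1, h2, h3⟩ := hE q (q ^ 2 + q + 1) hq2 rfl
  have hT := t_TC hH hG hC P L q (q ^ 2 + q + 1) hq rfl s J h1 h2
  have hq' : q = ProjectivePlane.order (Dual L) (Dual P) := by
    rw [hq]
    exact (ProjectivePlane.Dual.order P L).symm
  have hT' := t_TC hH hG hC (Dual L) (Dual P) q (q ^ 2 + q + 1) hq' rfl s J h1 h2
  set n := q ^ 2 + q + 1 with hn
  have h4 : numMin P L ≤ (3 * 16 ^ s * (n + 1) ^ (2 * J)) ^ 3 := by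
    calc numMin P L ≤ numTan P L ^ 2 * numTan (Dual L) (Dual P) := hM P L
      _ ≤ (3 * 16 ^ s * (n + 1) ^ (2 * J)) ^ 2 * (3 * 16 ^ s * (n + 1) ^ (2 * J)) := by gcongr
      _ = _ := by ring
  have h5 : (numMin P L : ℝ) ≤ (3 * 16 ^ s * ((n : ℝ) + 1) ^ (2 * J)) ^ 3 := by exact_mod_cast h4
  have h6 : (0 : ℝ) < numMin P L := by
    have := (num_pos P L hu).trans (hi P L)
    exact_mod_cast this
  have hn1 : (0 : ℝ) < (n : ℝ) + 1 := by positivity
  have hlog3 : Real.logb 2 3 ≤ 5 / 3 := by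
    rw [Real.logb_le_iff_le_rpow (by norm_num) (by norm_num)]
    have : (3 : ℝ) ^ (3 : ℝ) ≤ ((2 : ℝ) ^ (5 / 3 : ℝ)) ^ (3 : ℝ) := by
      rw [← Real.rpow_mul (by norm_num)]
      norm_num
    exact (Real.rpow_le_rpow_iff (by norm_num) (by positivity) (by norm_num)).1 this
  have hlog16 : Real.logb 2 16 = 4 := by
    rw [show (16 : ℝ) = 2 ^ (4 : ℕ) by norm_num, Real.logb_pow, Real.logb_self_eq_one (by norm_num)]
    norm_num
  have h7 : Real.logb 2 ((3 * 16 ^ s * ((n : ℝ) + 1) ^ (2 * J)) ^ 3) =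
      3 * (Real.logb 2 3 + s * 4 + (2 * J) * Real.logb 2 ((n : ℝ) + 1)) := by
    rw [Real.logb_pow, Real.logb_mul (by positivity) (by positivity),
      Real.logb_mul (by positivity) (by positivity), Real.logb_pow, Real.logb_pow, hlog16]
    push_cast
    ring
  have hl : 0 ≤ Real.logb 2 ((n : ℝ) + 1) := Real.logb_nonneg (by norm_num) (by linarith [n.cast_nonneg (α := ℝ)])
  have hq1 : (1 : ℝ) ≤ (q : ℝ) ^ (3 / 2 : ℝ) := by
    apply Real.one_le_rpow _ (by norm_num)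
    exact_mod_cast (by omega : 1 ≤ q)
  have hJl : 0 ≤ (J : ℝ) * Real.logb 2 ((n : ℝ) + 1) := by positivity
  have hs0 : (0 : ℝ) ≤ s := Nat.cast_nonneg s
  have h8 : (s : ℝ) + J * Real.logb 2 ((n : ℝ) + 1) ≤ C * (q : ℝ) ^ (3 / 2 : ℝ) := by
    exact_mod_cast h3
  calc Real.logb 2 (numMin P L) ≤ Real.logb 2 ((3 * 16 ^ s * ((n : ℝ) + 1) ^ (2 * J)) ^ 3) :=
        Real.logb_le_logb_of_le (by norm_num) h6 h5
    _ = 3 * (Real.logb 2 3 + s * 4 + (2 * J) * Real.logb 2 ((n : ℝ) + 1)) := h7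
    _ ≤ 5 + 12 * (s + J * Real.logb 2 ((n : ℝ) + 1)) := by nlinarith
    _ ≤ 5 * (q : ℝ) ^ (3 / 2 : ℝ) + 12 * (C * (q : ℝ) ^ (3 / 2 : ℝ)) := by nlinarith
    _ = (5 + 12 * C) * (q : ℝ) ^ (3 / 2 : ℝ) := by ring

end V5helper19.EP

namespace V5helper19.EP

/-- the upper bound for the number of tangency sets -/
theorem log_numTan (hH : S_H) (hG : S_G) (hC : S_CH) (he1 : S_E1) : ∃ C : ℝ, ∀ (P L : Type)
    [Fintype P] [Fintype L] [Membership P L] [ProjectivePlane P L] (q : ℕ),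
    q = ProjectivePlane.order P L →
    Real.logb 2 (numTan P L) ≤ C * (q : ℝ) ^ (3 / 2 : ℝ) := by
  obtain ⟨C, hE⟩ := he1
  refine ⟨2 + 4 * C, fun P L _ _ _ _ q hq => ?_⟩
  have hq2 : 2 ≤ q := by
    rw [hq]
    exact ProjectivePlane.one_lt_order P L
  obtain ⟨s, J, h1, h2, h3⟩ := hE q (q ^ 2 + q + 1) hq2 rfl
  have hT := t_TC hH hG hC P L q (q ^ 2 + q + 1) hq rfl s J h1 h2
  set n := q ^ 2 + q + 1 with hn
  have h5 : (numTan P L : ℝ) ≤ 3 * 16 ^ s * ((n : ℝ) + 1) ^ (2 * J) := by exact_mod_cast hT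
  have h6 : (0 : ℝ) < numTan P L := by
    have := numTan_pos P L
    exact_mod_cast this
  have hn1 : (0 : ℝ) < (n : ℝ) + 1 := by positivity
  have hlog3 : Real.logb 2 3 ≤ 2 := by
    rw [Real.logb_le_iff_le_rpow (by norm_num) (by norm_num)]
    norm_num
  have hlog16 : Real.logb 2 16 = 4 := by
    rw [show (16 : ℝ) = 2 ^ (4 : ℕ) by norm_num, Real.logb_pow, Real.logb_self_eq_one (by norm_num)]
    norm_num
  have h7 : Real.logb 2 (3 * 16 ^ s * ((n : ℝ) + 1) ^ (2 * J)) =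
      Real.logb 2 3 + s * 4 + (2 * J) * Real.logb 2 ((n : ℝ) + 1) := by
    rw [Real.logb_mul (by positivity) (by positivity),
      Real.logb_mul (by positivity) (by positivity), Real.logb_pow, Real.logb_pow, hlog16]
    push_cast
    ring
  have hl : 0 ≤ Real.logb 2 ((n : ℝ) + 1) := Real.logb_nonneg (by norm_num) (by linarith [n.cast_nonneg (α := ℝ)])
  have hq1 : (1 : ℝ) ≤ (q : ℝ) ^ (3 / 2 : ℝ) := by
    apply Real.one_le_rpow _ (by norm_num)
    exact_mod_cast (by omega : 1 ≤ q)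
  have hJl : 0 ≤ (J : ℝ) * Real.logb 2 ((n : ℝ) + 1) := by positivity
  have hs0 : (0 : ℝ) ≤ s := Nat.cast_nonneg s
  have h8 : (s : ℝ) + J * Real.logb 2 ((n : ℝ) + 1) ≤ C * (q : ℝ) ^ (3 / 2 : ℝ) := by
    exact_mod_cast h3
  calc Real.logb 2 (numTan P L) ≤ Real.logb 2 (3 * 16 ^ s * ((n : ℝ) + 1) ^ (2 * J)) :=
        Real.logb_le_logb_of_le (by norm_num) h6 h5
    _ = Real.logb 2 3 + s * 4 + (2 * J) * Real.logb 2 ((n : ℝ) + 1) := h7
    _ ≤ 2 + 4 * (s + J * Real.logb 2 ((n : ℝ) + 1)) := by nlinarith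
    _ ≤ 2 * (q : ℝ) ^ (3 / 2 : ℝ) + 4 * (C * (q : ℝ) ^ (3 / 2 : ℝ)) := by nlinarith
    _ = (2 + 4 * C) * (q : ℝ) ^ (3 / 2 : ℝ) := by ring

end V5helper19.EP
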