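import Pool.Agent.W5h2.DP.Defs
import Pool.Agent.W5h2.DP.M

/-! Minimal dominating sets of projective planes: log m = O(q^(3/2)). Definitions Tan, Dom, numMin,
mis, S_H are those of Pool.Agent.W5h2.DP (starting files). -/

set_option autoImplicit false

open Finset Configuration Pool.Agent.W5h2.DP

namespace V5helper19.EP

/-- the number of tangency sets -/
noncomputable def numTan (P L : Type) [Membership P L] : ℕ := {U : Finset P | Tan P L U}.ncard

open Classical in
/-- JOB G (70 lines, greedy; uses S_H). X S = the points x with
2 n (number of the lines of mis L S through x) < (mis L S).card (q+1). Start with S = empty and add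
a point a of A with (mis L S).card (q+1) <= 2 n (number of lines of mis L S through a) as long as
there is one: each step multiplies (mis L S).card by at most 1 - (q+1)/(2n), so after J steps
mis L S is empty (card L = n) and the first alternative holds. If it stops before, A is a subset of
X S, and S_H applied to X S and mis L S gives (X S).card (mis L S).card (q+1)^2 <= 4 q n^2 <=
s^2 (q+1)^2, so one of the two cards is at most s. -/
def S_G : Prop := ∀ (P L : Type) [Fintype P] [Fintype L] [Membership P L] [ProjectivePlane P L]
  (q n : ℕ), q = ProjectivePlane.order P L → n = q ^ 2 + q + 1 → ∀ s J : ℕ,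
  4 * q * n ^ 2 ≤ s ^ 2 * (q + 1) ^ 2 → (1 - ((q : ℝ) + 1) / (2 * n)) ^ J * n < 1 →
  ∃ X : Finset P → Finset P, ∀ A : Finset P, ∃ S : Finset P, S ⊆ A ∧ S.card ≤ J ∧
    ((mis L S).card ≤ s ∨ (A ⊆ X S ∧ (X S).card ≤ s))

/-- JOB CH (30 lines). choose N r <= N^r / r!, r! <= r^r, so (choose N r) (r!)^2 <= (N r)^r <=
s^(2 r), choose N r <= (s^r / r!)^2 <= exp(s)^2 <= 8^s. -/
def S_CH : Prop := ∀ N r s : ℕ, N * r ≤ s ^ 2 → N.choose r ≤ 8 ^ s

/-- JOB MC (80 lines, a variant of m_part and m in Pool/Agent/W5h2/DP/M.lean): in the proof of m_part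
A and B are tangency sets (hAT, hB), and C is a tangency set of the dual plane (hex, with Y replaced
by C). So D = (mX B (mY A C), mY A C) gives an injection into triples. -/
def S_MC : Prop := ∀ (P L : Type) [Fintype P] [Fintype L] [Membership P L] [ProjectivePlane P L],
  numMin P L ≤ numTan P L ^ 2 * numTan (Dual L) (Dual P)

end V5helper19.EP
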