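import Pool.Agent.V5helper19.EP.Stm

set_option autoImplicit false

open Finset Configuration Pool.Agent.W5h2.DP

namespace V5helper19.EP

theorem J_gt (q n J : ℕ) (hq : 2 ≤ q) (hn : n = q ^ 2 + q + 1)
    (hJ : (1 - ((q : ℝ) + 1) / (2 * n)) ^ J * n < 1) : 2 * q < J := by
  have hn0 : (0 : ℝ) < n := by rw [hn]; push_cast; positivity
  have hnr : (n : ℝ) = q ^ 2 + q + 1 := by rw [hn]; push_cast; ring
  have hx : ((q : ℝ) + 1) / (2 * n) ≤ 1 := by
    rw [div_le_one (by positivity), hnr]
    have : (2 : ℝ) ≤ q := by exact_mod_cast hq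
    nlinarith
  have hB := one_add_mul_le_pow (a := -(((q : ℝ) + 1) / (2 * n))) (by linarith) J
  rw [← sub_eq_add_neg] at hB
  have h1 : (1 + (J : ℝ) * -(((q : ℝ) + 1) / (2 * n))) * n < 1 :=
    lt_of_le_of_lt (mul_le_mul_of_nonneg_right hB hn0.le) hJ
  have h2 : (1 + (J : ℝ) * -(((q : ℝ) + 1) / (2 * n))) * n = n - J * (q + 1) / 2 := by
    field_simp
    ring
  rw [h2, hnr] at h1
  have h3 : (2 * (q : ℝ)) * (q + 1) < J * (q + 1) := by nlinarith
  have h4 : 2 * (q : ℝ) < J := lt_of_mul_lt_mul_right h3 (by positivity)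
  exact_mod_cast h4

open Classical in
theorem card_small {α : Type} [Fintype α] (n J : ℕ) (hn : Fintype.card α = n) :
    ((univ : Finset (Finset α)).filter fun S => S.card ≤ J).card ≤ (n + 1) ^ J := by
  have hsub : ((univ : Finset (Finset α)).filter fun S => S.card ≤ J) ⊆
      (univ : Finset (Fin J → Option α)).image (fun f => mS f) := by
    intro S hS
    obtain ⟨f, hf⟩ := mS_surj S (mem_filter.1 hS).2
    exact mem_image.2 ⟨f, mem_univ _, hf⟩
  refine (card_le_card hsub).trans (card_image_le.trans ?_)
  rw [card_univ, Fintype.card_fun, Fintype.card_option, Fintype.card_fin, hn]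

open Classical in
theorem t_TC (hH : S_H) (hG : S_G) (hC : S_CH) (P L : Type) [Fintype P] [Fintype L]
    [Membership P L] [ProjectivePlane P L] (q n : ℕ) (hq : q = ProjectivePlane.order P L)
    (hn : n = q ^ 2 + q + 1) (s J : ℕ) (h1 : 4 * q * n ^ 2 ≤ s ^ 2 * (q + 1) ^ 2)
    (h2 : (1 - ((q : ℝ) + 1) / (2 * n)) ^ J * n < 1) :
    numTan P L ≤ 3 * 16 ^ s * (n + 1) ^ (2 * J) := by
  have hq2 : 2 ≤ q := by
    rw [hq]
    exact ProjectivePlane.one_lt_order P L
  have hcard : Fintype.card P = n := by
    rw [ProjectivePlane.card_points P L, hn, hq]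
  have hJ := J_gt q n J hq2 hn h2
  obtain ⟨X, hX⟩ := hG P L q n hq hn s J h1 h2
  set SJ : Finset (Finset P) := univ.filter fun S => S.card ≤ J with hSJ
  have hSJc : SJ.card ≤ (n + 1) ^ J := card_small n J hcard
  set X1 : Finset L → Finset P := fun M => univ.filter fun x => (M.filter fun l => x ∈ l).card = 1
    with hX1
  set E1 : Finset (Finset P) := SJ.biUnion fun S => if (X S).card ≤ s then (X S).powerset else ∅
    with hE1
  set E2 : Finset (Finset P) := SJ.biUnion fun S => if (mis L S).card ≤ s then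
    (mis L S).powerset.biUnion fun M => (powersetCard M.card (X1 M)).image fun R => S ∪ R else ∅
    with hE2
  -- cards
  have hE1c : E1.card ≤ (n + 1) ^ J * 2 ^ s := by
    refine (card_biUnion_le).trans ?_
    refine (sum_le_card_nsmul _ _ (2 ^ s) ?_).trans ?_
    · intro S _
      split_ifs with h
      · rw [card_powerset]
        exact Nat.pow_le_pow_right (by norm_num) h
      · simp
    · rw [smul_eq_mul]
      exact Nat.mul_le_mul_right _ hSJc
  have hRR : ∀ M : Finset L, (powersetCard M.card (X1 M)).card ≤ 8 ^ s + (n + 1) ^ J := by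
    intro M
    rw [card_powersetCard]
    rcases Nat.lt_or_ge (2 * n) (M.card * (q + 1)) with h | h
    · have h3 : ¬ (4 * q * n ^ 2 < (X1 M).card * M.card * (q + 1) ^ 2) := by
        intro h4
        obtain ⟨a, ha, ha2⟩ := hH P L q n hq hn (X1 M) M h4
        have h5 : (M.filter fun l => a ∈ l).card = 1 := (mem_filter.1 ha).2
        rw [h5] at ha2
        omega
      have h4 : (X1 M).card * M.card ≤ s ^ 2 := by
        have h5 : (X1 M).card * M.card * (q + 1) ^ 2 ≤ s ^ 2 * (q + 1) ^ 2 := by omega
        exact Nat.le_of_mul_le_mul_right h5 (by positivity)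
      exact (hC _ _ _ h4).trans (Nat.le_add_right _ _)
    · have h3 : M.card ≤ J := by
        have h4 : M.card < 2 * q + 1 := by
          by_contra h5
          push Not at h5
          have h6 : (2 * q + 1) * (q + 1) ≤ M.card * (q + 1) := Nat.mul_le_mul_right _ h5
          rw [hn] at h
          nlinarith
        omega
      have h4 : (X1 M).card ≤ n := by
        rw [← hcard]
        exact card_le_univ _
      calc (X1 M).card.choose M.card ≤ (X1 M).card ^ M.card := Nat.choose_le_pow _ _
        _ ≤ (n + 1) ^ M.card := Nat.pow_le_pow_left (by omega) _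
        _ ≤ (n + 1) ^ J := Nat.pow_le_pow_right (by omega) h3
        _ ≤ _ := Nat.le_add_left _ _
  have hE2c : E2.card ≤ (n + 1) ^ J * (2 ^ s * (8 ^ s + (n + 1) ^ J)) := by
    refine (card_biUnion_le).trans ?_
    refine (sum_le_card_nsmul _ _ (2 ^ s * (8 ^ s + (n + 1) ^ J)) ?_).trans ?_
    · intro S _
      split_ifs with h
      · refine (card_biUnion_le).trans ?_
        refine (sum_le_card_nsmul _ _ (8 ^ s + (n + 1) ^ J) ?_).trans ?_
        · intro M _
          exact card_image_le.trans (hRR M)
        · rw [smul_eq_mul, card_powerset]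
          exact Nat.mul_le_mul_right _ (Nat.pow_le_pow_right (by norm_num) h)
      · simp
    · rw [smul_eq_mul]
      exact Nat.mul_le_mul_right _ hSJc
  -- membership
  have hsub : {U : Finset P | Tan P L U} ⊆ ((E1 ∪ E2 : Finset (Finset P)) : Set (Finset P)) := by
    intro U hU
    change Tan P L U at hU
    rw [mem_coe, mem_union]
    obtain ⟨S, hSU, hSc, hS⟩ := hX U
    have hSm : S ∈ SJ := mem_filter.2 ⟨mem_univ _, hSc⟩
    rcases hS with hS | ⟨hS1, hS2⟩
    · right
      rw [hE2, mem_biUnion]
      refine ⟨S, hSm, ?_⟩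
      rw [if_pos hS]
      obtain ⟨_, _, _, l0, _⟩ := ProjectivePlane.exists_config (P := P) (L := L)
      have : Nonempty L := ⟨l0⟩
      have hU' : ∀ u : P, u ∈ U → ∃ l : L, u ∈ l ∧ ∀ u' ∈ U, u' ∈ l → u' = u := hU
      choose! g hg1 hg2 using hU'
      set R := U \ S with hR
      have hRU : ∀ u ∈ R, u ∈ U := fun u hu => (mem_sdiff.1 hu).1
      have hRS : ∀ u ∈ R, u ∉ S := fun u hu => (mem_sdiff.1 hu).2
      rw [mem_biUnion]
      refine ⟨R.image g, ?_, ?_⟩
      · rw [mem_powerset]
        intro l hl
        obtain ⟨u, hu, rfl⟩ := mem_image.1 hl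
        rw [mem_mis]
        intro p hp hpl
        have := hg2 u (hRU u hu) p (hSU hp) hpl
        exact hRS u hu (this ▸ hp)
      · rw [mem_image]
        refine ⟨R, ?_, ?_⟩
        · rw [mem_powersetCard]
          constructor
          · intro x hx
            rw [hX1, mem_filter]
            refine ⟨mem_univ _, ?_⟩
            rw [card_eq_one]
            refine ⟨g x, ?_⟩
            ext l
            rw [mem_filter, mem_singleton]
            constructor
            · rintro ⟨hl, hxl⟩
              obtain ⟨u, hu, rfl⟩ := mem_image.1 hl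
              rw [hg2 u (hRU u hu) x (hRU x hx) hxl]
            · rintro rfl
              exact ⟨mem_image_of_mem g hx, hg1 x (hRU x hx)⟩
          · rw [card_image_of_injOn]
            intro u hu v hv huv
            have hu' := hRU u (mem_coe.1 hu)
            have hv' := hRU v (mem_coe.1 hv)
            have : u ∈ g v := by
              have h := hg1 u hu'
              rwa [huv] at h
            exact hg2 v hv' u hu' this
        · exact union_sdiff_of_subset hSU
    · left
      rw [hE1, mem_biUnion]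
      refine ⟨S, hSm, ?_⟩
      rw [if_pos hS2]
      exact mem_powerset.2 hS1
  have hfin : numTan P L ≤ (E1 ∪ E2).card := by
    unfold numTan
    refine (Set.ncard_le_ncard hsub (Set.toFinite _)).trans ?_
    rw [Set.ncard_coe_finset]
  have hN : 1 ≤ (n + 1) ^ J := Nat.one_le_pow _ _ (by omega)
  have h8 : 1 ≤ 8 ^ s := Nat.one_le_pow _ _ (by norm_num)
  have h16 : (2 : ℕ) ^ s * 8 ^ s = 16 ^ s := by
    rw [← mul_pow]
    norm_num
  have hpow : (n + 1) ^ (2 * J) = (n + 1) ^ J * (n + 1) ^ J := by rw [two_mul, pow_add]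
  calc numTan P L ≤ E1.card + E2.card := hfin.trans (card_union_le _ _)
    _ ≤ (n + 1) ^ J * 2 ^ s + (n + 1) ^ J * (2 ^ s * (8 ^ s + (n + 1) ^ J)) := add_le_add hE1c hE2c
    _ ≤ 3 * 16 ^ s * (n + 1) ^ (2 * J) := by
      rw [hpow, ← h16]
      set a := (n + 1) ^ J
      set b := (2 : ℕ) ^ s
      set c := (8 : ℕ) ^ s
      have e1 : a * b ≤ b * c * (a * a) := by
        calc a * b = b * 1 * (a * 1) := by ring
          _ ≤ b * c * (a * a) := by gcongr
      have e2 : a * (b * c) ≤ b * c * (a * a) := by
        calc a * (b * c) = b * c * (a * 1) := by ring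
          _ ≤ b * c * (a * a) := by gcongr
      have e3 : a * (b * a) ≤ b * c * (a * a) := by
        calc a * (b * a) = b * 1 * (a * a) := by ring
          _ ≤ b * c * (a * a) := by gcongr
      calc a * b + a * (b * (c + a)) = a * b + a * (b * c) + a * (b * a) := by ring
        _ ≤ b * c * (a * a) + b * c * (a * a) + b * c * (a * a) := by gcongr
        _ = 3 * (b * c) * (a * a) := by ring

end V5helper19.EP
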